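import Pool.Agent.H44.DU.Targets

/-!
EX: words can be extended near every point.
-/

set_option autoImplicit false

namespace Pool.Agent.H91.DU.EX

open Pool.Agent.H44.DU

lemma ext {n : ℕ} (S : Surf n) {t x : ℝ} {w : List (Side n)} {l : Side n}
    (h : S.Run t (w ++ [l]) x) (hne : S.g t (w ++ [l]) x ≠ xi t (S.O (S.gl l))) :
    ∃ r, S.Run t (w ++ [l] ++ [r]) x := by
  have hI : S.InI t (S.gl l) (S.g t (w ++ [l]) x) := by
    have h1 := (S.run_append t w [l] x).1 h
    have h2 := (S.run_single t l _).1 h1.2.2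
    rw [S.g_append, S.g_single]
    exact (S.inI_gl_iff t l _).2 h2
  rcases lt_or_gt_of_ne hne with h1 | h1
  · refine ⟨nx (nx (S.gl l)), (S.run_snoc t w l _ x).2 ⟨h, rfl, S.exit_left hI h1⟩⟩
  · refine ⟨nx (S.gl l), (S.run_snoc t w l _ x).2 ⟨h, rfl, S.exit_right hI h1⟩⟩

theorem pf_EX (hL : T_LH) : T_EX := by
  intro n S t x ε w l hε hrun
  have hne : w ++ [l] ≠ [] := by simp
  by_cases hy : S.g t (w ++ [l]) x = xi t (S.O (S.gl l))
  · obtain ⟨hc, hlo, hhi⟩ := (hL n S t (w ++ [l]) hne x).1 hrun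
    set x' : ℝ := x + min ε (S.hi t (w ++ [l]) - x) / 2 with hx'
    have hm : 0 < min ε (S.hi t (w ++ [l]) - x) := lt_min hε (by linarith)
    have h1 : min ε (S.hi t (w ++ [l]) - x) ≤ ε := min_le_left _ _
    have h2 : min ε (S.hi t (w ++ [l]) - x) ≤ S.hi t (w ++ [l]) - x := min_le_right _ _
    have hxx : x < x' := by rw [hx']; linarith
    have hr : S.Run t (w ++ [l]) x' :=
      (hL n S t (w ++ [l]) hne x').2 ⟨hc, by linarith, by rw [hx']; linarith⟩
    have hne' : S.g t (w ++ [l]) x' ≠ xi t (S.O (S.gl l)) := by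
      have := (S.g_lt_iff t (w ++ [l])).2 hxx
      rw [hy] at this
      exact this.ne'
    obtain ⟨r, h⟩ := ext S hr hne'
    refine ⟨r, x', ?_, h⟩
    rw [abs_of_pos (by linarith)]
    rw [hx']; linarith
  · obtain ⟨r, h⟩ := ext S hrun hy
    exact ⟨r, x, by simpa using hε, h⟩

end Pool.Agent.H91.DU.EX
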